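import Mathlib
import Pool.Agent.Y920.HN.Stm

/-! HN-K: a compact normal subgroup which contains the commutators with a compact set. -/

set_option autoImplicit false

open MeasureTheory Filter Topology

namespace Pool.Agent.Y781.HN

open Pool.Agent.Y920.HN

/-- the generators -/
def gens {G : Type} [Group G] (V : Subgroup G) (C : Set G) : Set G :=
  {q | ∃ x ∈ V, ∃ y ∈ C, q = x * y * x⁻¹ * y⁻¹}

theorem conj_gens {G : Type} [Group G] {V : Subgroup G} {C : Set G} {x z : G} (hx : x ∈ V)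
    (hz : z ∈ Subgroup.closure (gens V C)) : x * z * x⁻¹ ∈ Subgroup.closure (gens V C) := by
  induction hz using Subgroup.closure_induction with
  | mem z hz =>
    obtain ⟨a, ha, y, hy, rfl⟩ := hz
    have e : x * (a * y * a⁻¹ * y⁻¹) * x⁻¹ =
        ((x * a) * y * (x * a)⁻¹ * y⁻¹) * (x * y * x⁻¹ * y⁻¹)⁻¹ := by group
    rw [e]
    exact mul_mem (Subgroup.subset_closure ⟨x * a, mul_mem hx ha, y, hy, rfl⟩)
      (inv_mem (Subgroup.subset_closure ⟨x, hx, y, hy, rfl⟩))
  | one => simp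
  | mul a b _ _ ha hb =>
    have e : x * (a * b) * x⁻¹ = (x * a * x⁻¹) * (x * b * x⁻¹) := by group
    rw [e]
    exact mul_mem ha hb
  | inv a _ ha =>
    have e : x * a⁻¹ * x⁻¹ = (x * a * x⁻¹)⁻¹ := by group
    rw [e]
    exact inv_mem ha

/-- the image of the group generated by the commutators is finite -/
theorem image_finite (h2 : S_SCHUR) {G : Type} [Group G] [TopologicalSpace G]
    [IsTopologicalGroup G] (F : Filt G) (k : ℕ) (hB : BddAt F k) (C : Set G) (hC : IsCompact C)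
    (hCV : C ⊆ F.V k) (n : ℕ) :
    ((fun x : G => (x : G ⧸ F.V n)) '' (Subgroup.closure (gens (F.V k) C) : Set G)).Finite := by
  have : (F.V n).Normal := F.normal n
  have : DiscreteTopology (G ⧸ F.V n) := QuotientGroup.discreteTopology (F.isOpen n)
  have hCf : ((fun x : G => (x : G ⧸ F.V n)) '' C).Finite :=
    isCompact_iff_finite.mp (hC.image QuotientGroup.continuous_mk)
  set N : Subgroup (G ⧸ F.V n) := (F.V k).map (QuotientGroup.mk' (F.V n)) with hN
  have hmemN : ∀ x ∈ F.V k, ((x : G) : G ⧸ F.V n) ∈ N := fun x hx => ⟨x, hx, rfl⟩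
  set E : Set N := {e : N | (e : G ⧸ F.V n) ∈ (fun x : G => (x : G ⧸ F.V n)) '' C} with hE
  have hEf : E.Finite := hCf.preimage Subtype.val_injective.injOn
  have hFC : ∀ x : N, {q : N | ∃ y : N, q = y * x * y⁻¹}.Finite := by
    rintro ⟨x, x0, hx0, rfl⟩
    refine Set.Finite.subset ((hB x0 hx0 n).preimage
      (f := (Subtype.val : N → G ⧸ F.V n)) Subtype.val_injective.injOn) ?_
    rintro q ⟨⟨y, y0, hy0, rfl⟩, rfl⟩
    exact ⟨y0, hy0, rfl⟩
  have hfin := h2 N hFC E hEf
  set S : Subgroup N := Subgroup.closure {q : N | ∃ x : N, ∃ e ∈ E, q = x * e * x⁻¹ * e⁻¹} with hS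
  have hle : Subgroup.closure (gens (F.V k) C) ≤
      (S.map N.subtype).comap (QuotientGroup.mk' (F.V n)) := by
    rw [Subgroup.closure_le]
    rintro q ⟨x, hx, y, hy, rfl⟩
    have hyN := hmemN y (hCV hy)
    have hxN := hmemN x hx
    refine ⟨(⟨_, hxN⟩ : N) * ⟨_, hyN⟩ * (⟨_, hxN⟩ : N)⁻¹ * (⟨_, hyN⟩ : N)⁻¹, ?_, rfl⟩
    exact Subgroup.subset_closure ⟨⟨_, hxN⟩, ⟨_, hyN⟩, ⟨y, hy, rfl⟩, rfl⟩
  have hSf : ((S : Set N)).Finite := Set.toFinite _
  refine Set.Finite.subset (hSf.image (Subtype.val : N → G ⧸ F.V n)) ?_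
  rintro q ⟨z, hz, rfl⟩
  obtain ⟨s, hs, hse⟩ := hle hz
  exact ⟨s, hs, hse⟩

/-- **HN-K.** -/
theorem t_K (h1 : S_CPT) (h2 : S_SCHUR) : S_K := by
  intro G _ _ _ F k hB C hC hCV
  set D := Subgroup.closure (gens (F.V k) C) with hD
  refine ⟨D.topologicalClosure, ?_, ?_, ?_⟩
  · apply h1 G F _ D.isClosed_topologicalClosure
    intro n
    refine (image_finite h2 F k hB C hC hCV n).subset ?_
    rintro q ⟨z, hz, rfl⟩
    have hz' : z ∈ closure (D : Set G) := hz
    have hopen : IsOpen ((fun x : G => z * x) '' (F.V n : Set G)) :=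
      (Homeomorph.mulLeft z).isOpenMap _ (F.isOpen n)
    have hzin : z ∈ (fun x : G => z * x) '' (F.V n : Set G) := ⟨1, one_mem _, mul_one z⟩
    obtain ⟨w, ⟨v, hv, hvw⟩, hw⟩ := mem_closure_iff.mp hz' _ hopen hzin
    refine ⟨w, hw, ?_⟩
    have hvw' : z * v = w := hvw
    rw [← hvw']
    exact (QuotientGroup.eq.mpr (by simpa using hv)).symm
  · intro x hx z hz
    have hz' : z ∈ closure (D : Set G) := hz
    have hc : Continuous fun z : G => x * z * x⁻¹ := by fun_prop
    have hm : Set.MapsTo (fun z : G => x * z * x⁻¹) (D : Set G) (D : Set G) :=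
      fun a ha => conj_gens hx ha
    exact map_mem_closure (f := fun z : G => x * z * x⁻¹) hc hz' hm
  · intro x hx y hy
    exact D.le_topologicalClosure (Subgroup.subset_closure ⟨x, hx, y, hy, rfl⟩)

end Pool.Agent.Y781.HN
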